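import Pool.Agent.Lib.MP_9abc2e_lc.TW.Main

/-!
# Learning circuits with two levels of unbounded AND, OR gates over MOD_p gates
-/

set_option autoImplicit false

namespace Pool.Agent.Results.MP_9abc2e_lc.TwoWideLevels

open Few Tw

/-- For every prime `p` and all constants `c`, `d`, `k`, `r` there are a learning program `A`, an
evaluation program `E` and a constant `b` with the following property. Let `l ≥ log (n / ε)`, let `f` be
computed by a circuit of size at most `2 ^ (l + 2) ^ c` (this is at least `n ^ c`) and depth at most `d`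
whose gates are `MOD_p` gates on literals (any number, any fan-in), NOT gates, arbitrary gates of fan-in
at most `k` (any number, anywhere) and wide AND, OR gates (any number, any fan-in), such that no path
contains more than two wide gates and at most `r` wide gates are above another wide gate. Let `μ` be a
distribution whose density with respect to the uniform distribution is at most `2 ^ (l + 2) ^ c` (for
example the uniform distribution). If `A` gets `l` and `m ≥ 2 ^ (l + 2) ^ b * (1 + log (1 / δ))` random
examples, then with probability at least `1 - δ` it writes in time `m ^ b` a hypothesis `H` which is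
evaluated by `E` in time `m ^ b` and has error at most `ε`. (Logarithms to the base 2.) -/
theorem result (p : ℕ) [Fact p.Prime] (c d k r : ℕ) : ∃ (A E : Prg) (b : ℕ),
    ∀ (n l m : ℕ) (ε δ : ℝ), 1 ≤ n → 0 < ε → ε ≤ 1 → 0 < δ → δ ≤ 1 → (n : ℝ) / ε ≤ 2 ^ l →
    2 ^ (l + 2) ^ b * (1 + Real.logb 2 (1 / δ)) ≤ m →
    ∀ f ∈ TwoWide p n d k r (2 ^ (l + 2) ^ c), ∀ μ : Dist n, (∀ x, μ.w x ≤ 2 ^ (l + 2) ^ c / 2 ^ n) →
    1 - δ ≤ μ.prS m {S | ∃ (H : T) (h : Cube n → Bool),
      (∃ τ ≤ m ^ b, Run A (T.cons (unary l) (smp f S)) H τ) ∧
      (∀ x, ∃ τ ≤ m ^ b, Run E (T.cons H (str x)) (bit (h x)) τ) ∧ μ.err f h ≤ ε} :=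
  main p c d k r

end Pool.Agent.Results.MP_9abc2e_lc.TwoWideLevels
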